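import Pool.Agent.H.MP_f5e42a_co.No

set_option autoImplicit false

namespace Pool.Agent.Results.MP_f5e42a_co.No

open Module

theorem result (𝕜 : Type) [RCLike 𝕜] (d r : ℕ) (hr : 0 < r) (hd : 7 * d = 27 * r) :
    ¬ ∃ W : Fin 6 → Submodule 𝕜 (EuclideanSpace 𝕜 (Fin d)), (∀ i, finrank 𝕜 (W i) = r) ∧
      (∃ α : ℝ, ∀ i j, i ≠ j → ∀ x ∈ W j, ‖(W i).starProjection x‖ = α * ‖x‖) ∧
      ∃ c : 𝕜, ∀ x, ∑ i, (W i).starProjection x = c • x := by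
  rintro ⟨W, h1, ⟨α, h2⟩, c, h3⟩
  exact H.MP_f5e42a_co.final W r h1 hr (by rw [finrank_euclideanSpace_fin]; exact hd) α h2 c h3

end Pool.Agent.Results.MP_f5e42a_co.No
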